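import Mathlib

/-!
# The cone of triangles of a graph is not described by the triangle-free subgraphs

For a finite simple graph `G` let `C(G)` be the cone spanned by the edge-characteristic vectors of
the triangles of `G` and let `P(G)` be the polyhedral cone of all `x` with `v_H^T x ≥ 0` for all
triangle-free subgraphs `H` of `G`.  We prove: if `G` contains six pairwise adjacent vertices then
`P(G)` contains a vector (with nonnegative integer entries) which is not in `C(G)`.
-/

set_option autoImplicit false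
open Classical

namespace Pool.Agent.Results.MP_eb5675_co.SixClique

section defs

variable {V : Type*} [Fintype V] (G : SimpleGraph V)

/-- The edge-characteristic vector of the triangle `T`. -/
noncomputable def chi (T : Finset V) (e : G.edgeSet) : ℝ :=
  if ∀ v ∈ (e : Sym2 V), v ∈ T then 1 else 0

/-- The cone of triangles `C(G)`. -/
def coneC : Set (G.edgeSet → ℝ) :=
  {x | ∃ lam : Finset V → ℝ, (∀ T, 0 ≤ lam T) ∧
    ∀ e, x e = ∑ T ∈ G.cliqueFinset 3, lam T * chi G T e}

variable {G}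

/-- The vector `v_H` of a subgraph `H = (V', E')` of `G`. -/
noncomputable def vvec (H : G.Subgraph) (e : G.edgeSet) : ℝ :=
  if (e : Sym2 V) ∈ H.edgeSet then -1
  else if ∀ v ∈ (e : Sym2 V), v ∈ H.verts then 2
  else if ∃ v ∈ (e : Sym2 V), v ∈ H.verts then 1 / 2
  else 0

variable (G)

/-- The cone `P(G)` given by the inequalities of all triangle-free subgraphs. -/
def coneP : Set (G.edgeSet → ℝ) :=
  {x | ∀ H : G.Subgraph, H.coe.CliqueFree 3 → 0 ≤ ∑ e, vvec H e * x e}

end defs

/-- The coefficient of the edge `ab` in the inequality of `(V', H)`. -/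
noncomputable def co (V' : Finset (Fin 6)) (H : SimpleGraph (Fin 6)) (a b : Fin 6) : ℝ :=
  if H.Adj a b then -1 else if a ∈ V' ∧ b ∈ V' then 2 else if a ∈ V' ∨ b ∈ V' then 1 / 2 else 0

/-- The configurations in which a triangle has total coefficient zero. -/
def Z (V' : Finset (Fin 6)) (H : SimpleGraph (Fin 6)) (a b c : Fin 6) : Prop :=
  (a ∉ V' ∧ b ∉ V' ∧ c ∉ V') ∨
  (H.Adj a b ∧ c ∉ V') ∨ (H.Adj a c ∧ b ∉ V') ∨ (H.Adj b c ∧ a ∉ V') ∨
  (H.Adj a b ∧ H.Adj a c ∧ ¬ H.Adj b c) ∨
  (H.Adj a b ∧ H.Adj b c ∧ ¬ H.Adj a c) ∨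
  (H.Adj a c ∧ H.Adj b c ∧ ¬ H.Adj a b)

variable {V' : Finset (Fin 6)} {H : SimpleGraph (Fin 6)}

/-- Each triangle has total coefficient zero or at least one; and it is zero only in the
listed configurations. -/
lemma tri (hV : ∀ u v, H.Adj u v → u ∈ V' ∧ v ∈ V') (hT : H.CliqueFree 3) (a b c : Fin 6) :
    1 ≤ co V' H a b + co V' H a c + co V' H b c ∨
    (co V' H a b + co V' H a c + co V' H b c = 0 ∧ Z V' H a b c) := by
  have h3 : ¬ (H.Adj a b ∧ H.Adj a c ∧ H.Adj b c) := by
    rintro ⟨h1, h2, h3⟩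
    exact hT {a, b, c} (SimpleGraph.is3Clique_triple_iff.2 ⟨h1, h2, h3⟩)
  have h1 := hV a b
  have h2 := hV a c
  have h4 := hV b c
  unfold co Z
  by_cases pa : a ∈ V' <;> by_cases pb : b ∈ V' <;> by_cases pc : c ∈ V' <;>
  by_cases qab : H.Adj a b <;> by_cases qac : H.Adj a c <;> by_cases qbc : H.Adj b c <;>
  simp_all <;> norm_num

/-- Pure logic: the triangles on `{0,1,2,3,4}` cannot all be in a zero configuration. -/
lemma noZ (hV : ∀ u v, H.Adj u v → u ∈ V' ∧ v ∈ V') (h0 : (0 : Fin 6) ∈ V')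
    (h012 : Z V' H 0 1 2) (h013 : Z V' H 0 1 3) (h014 : Z V' H 0 1 4) (h023 : Z V' H 0 2 3)
    (h024 : Z V' H 0 2 4) (h034 : Z V' H 0 3 4) (h123 : Z V' H 1 2 3) (h124 : Z V' H 1 2 4)
    (h134 : Z V' H 1 3 4) (h234 : Z V' H 2 3 4) : False := by
  have e01 := hV 0 1
  have e02 := hV 0 2
  have e03 := hV 0 3
  have e04 := hV 0 4
  have e12 := hV 1 2
  have e13 := hV 1 3
  have e14 := hV 1 4
  have e23 := hV 2 3
  have e24 := hV 2 4
  have e34 := hV 3 4
  clear hV
  unfold Z at *
  by_cases p1 : (1 : Fin 6) ∈ V' <;> by_cases p2 : (2 : Fin 6) ∈ V' <;>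
  by_cases p3 : (3 : Fin 6) ∈ V' <;> by_cases p4 : (4 : Fin 6) ∈ V' <;>
  simp [h0, p1, p2, p3, p4] at * <;>
  grind


/-- Every inequality of the proposed description holds for the weights. -/
lemma mem_P (hV : ∀ u v, H.Adj u v → u ∈ V' ∧ v ∈ V') (hT : H.CliqueFree 3) :
    0 ≤ co V' H 0 1 * 4 + (co V' H 0 2 * 4 + (co V' H 0 3 * 4 + (co V' H 0 4 * 4 +
      (co V' H 0 5 * 5 +
      (co V' H 1 2 * 3 + (co V' H 1 3 * 3 + (co V' H 1 4 * 3 + (co V' H 1 5 * 1 +
      (co V' H 2 3 * 3 + (co V' H 2 4 * 3 + (co V' H 2 5 * 1 + (co V' H 3 4 * 3 +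
      (co V' H 3 5 * 1 + co V' H 4 5 * 1))))))))))))) := by
  have t012 := tri hV hT 0 1 2
  have t013 := tri hV hT 0 1 3
  have t014 := tri hV hT 0 1 4
  have t023 := tri hV hT 0 2 3
  have t024 := tri hV hT 0 2 4
  have t034 := tri hV hT 0 3 4
  have t123 := tri hV hT 1 2 3
  have t124 := tri hV hT 1 2 4
  have t134 := tri hV hT 1 3 4
  have t234 := tri hV hT 2 3 4
  have nn : ∀ a b c : Fin 6, 0 ≤ co V' H a b + co V' H a c + co V' H b c := by
    intro a b c
    rcases tri hV hT a b c with h | h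
    · linarith
    · exact h.1.ge
  have n012 := nn 0 1 2
  have n013 := nn 0 1 3
  have n014 := nn 0 1 4
  have n023 := nn 0 2 3
  have n024 := nn 0 2 4
  have n034 := nn 0 3 4
  have n123 := nn 1 2 3
  have n124 := nn 1 2 4
  have n134 := nn 1 3 4
  have n234 := nn 2 3 4
  have n1 := nn 0 1 5
  have n2 := nn 0 2 5
  have n3 := nn 0 3 5
  have n4 := nn 0 4 5
  by_cases h05 : H.Adj 0 5
  · have h0 : (0 : Fin 6) ∈ V' := (hV 0 5 h05).1
    have hc : co V' H 0 5 = -1 := by unfold co; rw [if_pos h05]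
    by_contra hneg
    push Not at hneg
    refine noZ (V' := V') (H := H) hV h0 ?_ ?_ ?_ ?_ ?_ ?_ ?_ ?_ ?_ ?_
    · rcases t012 with h | h
      · exfalso; linarith
      · exact h.2
    · rcases t013 with h | h
      · exfalso; linarith
      · exact h.2
    · rcases t014 with h | h
      · exfalso; linarith
      · exact h.2
    · rcases t023 with h | h
      · exfalso; linarith
      · exact h.2
    · rcases t024 with h | h
      · exfalso; linarith
      · exact h.2
    · rcases t034 with h | h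
      · exfalso; linarith
      · exact h.2
    · rcases t123 with h | h
      · exfalso; linarith
      · exact h.2
    · rcases t124 with h | h
      · exfalso; linarith
      · exact h.2
    · rcases t134 with h | h
      · exfalso; linarith
      · exact h.2
    · rcases t234 with h | h
      · exfalso; linarith
      · exact h.2
  · have hc : 0 ≤ co V' H 0 5 := by
      unfold co; rw [if_neg h05]; split_ifs <;> norm_num
    linarith

/-- The 15 edges of the complete graph on six vertices. -/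
def prs : Finset (Fin 6 × Fin 6) :=
  {(0, 1), (0, 2), (0, 3), (0, 4), (0, 5), (1, 2), (1, 3), (1, 4), (1, 5), (2, 3), (2, 4),
    (2, 5), (3, 4), (3, 5), (4, 5)}

lemma sum_prs (F : Fin 6 × Fin 6 → ℝ) : ∑ p ∈ prs, F p =
    F (0, 1) + (F (0, 2) + (F (0, 3) + (F (0, 4) + (F (0, 5) + (F (1, 2) + (F (1, 3) +
    (F (1, 4) + (F (1, 5) + (F (2, 3) + (F (2, 4) + (F (2, 5) + (F (3, 4) + (F (3, 5) +
    F (4, 5)))))))))))))) := by
  rw [prs, Finset.sum_insert (by decide), Finset.sum_insert (by decide),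
    Finset.sum_insert (by decide), Finset.sum_insert (by decide), Finset.sum_insert (by decide),
    Finset.sum_insert (by decide), Finset.sum_insert (by decide), Finset.sum_insert (by decide),
    Finset.sum_insert (by decide), Finset.sum_insert (by decide), Finset.sum_insert (by decide),
    Finset.sum_insert (by decide), Finset.sum_insert (by decide), Finset.sum_insert (by decide),
    Finset.sum_singleton]

/-- The weights on the edges of the complete graph on six vertices. -/
def wt (p : Fin 6 × Fin 6) : ℕ :=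
  if p = (0, 5) then 5 else if p.2 = 5 then 1 else if p.1 = 0 then 4 else 3

section main

variable {V : Type*} [Fintype V] {G : SimpleGraph V}

/-- The vector, as a function on all unordered pairs. -/
noncomputable def xv (f : Fin 6 → V) (e : Sym2 V) : ℕ :=
  ∑ p ∈ prs, if e = s(f p.1, f p.2) then wt p else 0

/-- `v_H` as a function on all unordered pairs. -/
noncomputable def vv (H : G.Subgraph) (e : Sym2 V) : ℝ :=
  if e ∈ H.edgeSet then -1
  else if ∀ v ∈ e, v ∈ H.verts then 2
  else if ∃ v ∈ e, v ∈ H.verts then 1 / 2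
  else 0

lemma vv_eq (f : Fin 6 → V) (H : G.Subgraph) (a b : Fin 6) :
    vv H s(f a, f b) = co (Finset.univ.filter fun i => f i ∈ H.verts)
      (H.spanningCoe.comap f) a b := by
  unfold vv co
  have e1 : (s(f a, f b) ∈ H.edgeSet) ↔ (H.spanningCoe.comap f).Adj a b := by
    rw [SimpleGraph.comap_adj, SimpleGraph.Subgraph.spanningCoe_adj,
      SimpleGraph.Subgraph.mem_edgeSet]
  have e2 : (∀ v ∈ s(f a, f b), v ∈ H.verts) ↔
      (a ∈ (Finset.univ.filter fun i => f i ∈ H.verts) ∧
        b ∈ (Finset.univ.filter fun i => f i ∈ H.verts)) := by simp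
  have e3 : (∃ v ∈ s(f a, f b), v ∈ H.verts) ↔
      (a ∈ (Finset.univ.filter fun i => f i ∈ H.verts) ∨
        b ∈ (Finset.univ.filter fun i => f i ∈ H.verts)) := by simp
  by_cases h1 : (H.spanningCoe.comap f).Adj a b
  · rw [if_pos h1, if_pos (e1.2 h1)]
  · rw [if_neg h1, if_neg (fun h => h1 (e1.1 h))]
    by_cases h2 : a ∈ (Finset.univ.filter fun i => f i ∈ H.verts) ∧
        b ∈ (Finset.univ.filter fun i => f i ∈ H.verts)
    · rw [if_pos h2, if_pos (e2.2 h2)]
    · rw [if_neg h2, if_neg (fun h => h2 (e2.1 h))]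
      by_cases h3 : a ∈ (Finset.univ.filter fun i => f i ∈ H.verts) ∨
          b ∈ (Finset.univ.filter fun i => f i ∈ H.verts)
      · rw [if_pos h3, if_pos (e3.2 h3)]
      · rw [if_neg h3, if_neg (fun h => h3 (e3.1 h))]

lemma sum_vv (f : Fin 6 → V) (hf : ∀ p ∈ prs, s(f p.1, f p.2) ∈ G.edgeSet) (H : G.Subgraph) :
    ∑ e : G.edgeSet, vvec H e * (xv f (e : Sym2 V) : ℝ) =
      ∑ p ∈ prs, vv H s(f p.1, f p.2) * wt p := by
  have h1 : ∀ e : G.edgeSet, vvec H e * (xv f (e : Sym2 V) : ℝ) =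
      ∑ p ∈ prs, if (e : Sym2 V) = s(f p.1, f p.2) then vv H e * wt p else 0 := by
    intro e
    rw [xv, Nat.cast_sum, Finset.mul_sum]
    refine Finset.sum_congr rfl fun p _ => ?_
    split_ifs
    · rfl
    · rw [Nat.cast_zero, mul_zero]
  simp only [h1]
  rw [Finset.sum_comm]
  refine Finset.sum_congr rfl fun p hp => ?_
  rw [Finset.sum_eq_single ⟨s(f p.1, f p.2), hf p hp⟩]
  · exact if_pos rfl
  · intro e _ he
    exact if_neg fun h => he (Subtype.ext h)
  · intro h
    exact absurd (Finset.mem_univ _) h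

lemma xv_mem_coneP (f : Fin 6 → V) (hf : ∀ p ∈ prs, s(f p.1, f p.2) ∈ G.edgeSet)
    (hi : Function.Injective f) :
    (fun e : G.edgeSet => (xv f (e : Sym2 V) : ℝ)) ∈ coneP G := by
  intro H hH
  rw [sum_vv f hf H, sum_prs]
  simp only [vv_eq]
  have hV : ∀ u v, (H.spanningCoe.comap f).Adj u v →
      u ∈ (Finset.univ.filter fun i => f i ∈ H.verts) ∧
        v ∈ (Finset.univ.filter fun i => f i ∈ H.verts) := by
    intro u v h
    rw [SimpleGraph.comap_adj, SimpleGraph.Subgraph.spanningCoe_adj] at h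
    exact ⟨Finset.mem_filter.2 ⟨Finset.mem_univ _, H.edge_vert h⟩,
      Finset.mem_filter.2 ⟨Finset.mem_univ _, H.edge_vert h.symm⟩⟩
  have hT : (H.spanningCoe.comap f).CliqueFree 3 := by
    intro t ht
    rw [SimpleGraph.is3Clique_iff] at ht
    obtain ⟨a, b, c, hab, hac, hbc, -⟩ := ht
    rw [SimpleGraph.comap_adj, SimpleGraph.Subgraph.spanningCoe_adj] at hab hac hbc
    refine hH {⟨f a, H.edge_vert hab⟩, ⟨f b, H.edge_vert hab.symm⟩, ⟨f c, H.edge_vert hac.symm⟩}
      (SimpleGraph.is3Clique_triple_iff.2 ⟨?_, ?_, ?_⟩)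
    · exact hab
    · exact hac
    · exact hbc
  have h := mem_P hV hT
  refine h.trans_eq ?_
  have w1 : (wt (0, 1) : ℝ) = 4 := by
    rw [show wt (0, 1) = 4 by decide]
    norm_num
  have w2 : (wt (0, 2) : ℝ) = 4 := by
    rw [show wt (0, 2) = 4 by decide]
    norm_num
  have w3 : (wt (0, 3) : ℝ) = 4 := by
    rw [show wt (0, 3) = 4 by decide]
    norm_num
  have w4 : (wt (0, 4) : ℝ) = 4 := by
    rw [show wt (0, 4) = 4 by decide]
    norm_num
  have w5 : (wt (0, 5) : ℝ) = 5 := by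
    rw [show wt (0, 5) = 5 by decide]
    norm_num
  have w6 : (wt (1, 2) : ℝ) = 3 := by
    rw [show wt (1, 2) = 3 by decide]
    norm_num
  have w7 : (wt (1, 3) : ℝ) = 3 := by
    rw [show wt (1, 3) = 3 by decide]
    norm_num
  have w8 : (wt (1, 4) : ℝ) = 3 := by
    rw [show wt (1, 4) = 3 by decide]
    norm_num
  have w9 : (wt (1, 5) : ℝ) = 1 := by
    rw [show wt (1, 5) = 1 by decide]
    norm_num
  have w10 : (wt (2, 3) : ℝ) = 3 := by
    rw [show wt (2, 3) = 3 by decide]
    norm_num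
  have w11 : (wt (2, 4) : ℝ) = 3 := by
    rw [show wt (2, 4) = 3 by decide]
    norm_num
  have w12 : (wt (2, 5) : ℝ) = 1 := by
    rw [show wt (2, 5) = 1 by decide]
    norm_num
  have w13 : (wt (3, 4) : ℝ) = 3 := by
    rw [show wt (3, 4) = 3 by decide]
    norm_num
  have w14 : (wt (3, 5) : ℝ) = 1 := by
    rw [show wt (3, 5) = 1 by decide]
    norm_num
  have w15 : (wt (4, 5) : ℝ) = 1 := by
    rw [show wt (4, 5) = 1 by decide]
    norm_num
  rw [w1, w2, w3, w4, w5, w6, w7, w8, w9, w10, w11, w12, w13, w14, w15]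

lemma xv_f (f : Fin 6 → V) (hi : Function.Injective f) (a b : Fin 6) :
    xv f s(f a, f b) = ∑ p ∈ prs, if s(a, b) = s(p.1, p.2) then wt p else 0 := by
  unfold xv
  refine Finset.sum_congr rfl fun p _ => ?_
  have h : s(f a, f b) = s(f p.1, f p.2) ↔ s(a, b) = s(p.1, p.2) := by
    rw [Sym2.eq_iff, Sym2.eq_iff, hi.eq_iff, hi.eq_iff, hi.eq_iff, hi.eq_iff]
  by_cases h1 : s(a, b) = s(p.1, p.2)
  · rw [if_pos h1, if_pos (h.2 h1)]
  · rw [if_neg h1, if_neg fun h2 => h1 (h.1 h2)]

lemma xv_out (f : Fin 6 → V) (a w : V) (hw : ∀ i, w ≠ f i) : xv f s(a, w) = 0 := by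
  unfold xv
  refine Finset.sum_eq_zero fun p _ => if_neg fun h => ?_
  rw [Sym2.eq_iff] at h
  rcases h with h | h
  · exact hw _ h.2
  · exact hw _ h.2

lemma xv_not_mem_coneC (f : Fin 6 → V)
    (hadj : ∀ a b, a ≠ b → G.Adj (f a) (f b)) (hi : Function.Injective f) :
    (fun e : G.edgeSet => (xv f (e : Sym2 V) : ℝ)) ∉ coneC G := by
  rintro ⟨lam, hl, hx⟩
  have hval : ∀ (a b : V) (hab : G.Adj a b), (xv f s(a, b) : ℝ) =
      ∑ T ∈ G.cliqueFinset 3, (if a ∈ T ∧ b ∈ T then lam T else 0) := by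
    intro a b hab
    have h := hx ⟨s(a, b), hab⟩
    refine h.trans (Finset.sum_congr rfl fun T _ => ?_)
    unfold chi
    have e2 : (∀ v ∈ s(a, b), v ∈ T) ↔ (a ∈ T ∧ b ∈ T) := by simp
    by_cases h2 : a ∈ T ∧ b ∈ T
    · rw [if_pos h2, if_pos (e2.2 h2), mul_one]
    · rw [if_neg h2, if_neg (fun h => h2 (e2.1 h)), mul_zero]
  have h05 := hval _ _ (hadj 0 5 (by decide))
  have h1 := hval _ _ (hadj 5 1 (by decide))
  have h2 := hval _ _ (hadj 5 2 (by decide))
  have h3 := hval _ _ (hadj 5 3 (by decide))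
  have h4 := hval _ _ (hadj 5 4 (by decide))
  rw [xv_f f hi, show (∑ p ∈ prs, if s((0 : Fin 6), 5) = s(p.1, p.2) then wt p else 0) = 5 by
    decide] at h05
  rw [xv_f f hi, show (∑ p ∈ prs, if s((5 : Fin 6), 1) = s(p.1, p.2) then wt p else 0) = 1 by
    decide] at h1
  rw [xv_f f hi, show (∑ p ∈ prs, if s((5 : Fin 6), 2) = s(p.1, p.2) then wt p else 0) = 1 by
    decide] at h2
  rw [xv_f f hi, show (∑ p ∈ prs, if s((5 : Fin 6), 3) = s(p.1, p.2) then wt p else 0) = 1 by
    decide] at h3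
  rw [xv_f f hi, show (∑ p ∈ prs, if s((5 : Fin 6), 4) = s(p.1, p.2) then wt p else 0) = 1 by
    decide] at h4
  have key : ∑ T ∈ G.cliqueFinset 3, (if f 0 ∈ T ∧ f 5 ∈ T then lam T else 0) ≤
      ∑ T ∈ G.cliqueFinset 3, ((if f 5 ∈ T ∧ f 1 ∈ T then lam T else 0) +
        (if f 5 ∈ T ∧ f 2 ∈ T then lam T else 0) +
        (if f 5 ∈ T ∧ f 3 ∈ T then lam T else 0) +
        (if f 5 ∈ T ∧ f 4 ∈ T then lam T else 0)) := by
    apply Finset.sum_le_sum
    intro T hT
    have hct := hl T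
    have nn : ∀ (a b : V), 0 ≤ (if a ∈ T ∧ b ∈ T then lam T else 0) := by
      intro a b; split_ifs <;> simp [hct]
    have g1 := nn (f 5) (f 1)
    have g2 := nn (f 5) (f 2)
    have g3 := nn (f 5) (f 3)
    have g4 := nn (f 5) (f 4)
    by_cases h0 : f 0 ∈ T ∧ f 5 ∈ T
    · rw [if_pos h0]
      have hcl := SimpleGraph.mem_cliqueFinset_iff.1 hT
      have : ∃ w ∈ T, w ≠ f 0 ∧ w ≠ f 5 := by
        by_contra hno
        push Not at hno
        have hsub : T ⊆ {f 0, f 5} := by
          intro i hi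
          by_cases hi0 : i = f 0
          · simp [hi0]
          · simp [hno i hi hi0]
        have := Finset.card_le_card hsub
        rw [hcl.card_eq] at this
        have h2 : ({f 0, f 5} : Finset V).card ≤ 2 := Finset.card_le_two
        omega
      obtain ⟨w, hw, hw0, hw5⟩ := this
      by_cases hin : ∃ i, w = f i
      · obtain ⟨i, rfl⟩ := hin
        have hi0 : i ≠ 0 := fun h => hw0 (by rw [h])
        have hi5 : i ≠ 5 := fun h => hw5 (by rw [h])
        have hi' : i = 1 ∨ i = 2 ∨ i = 3 ∨ i = 4 := by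
          revert hi0 hi5; clear hw0 hw5 hw; revert i; decide
        rcases hi' with rfl | rfl | rfl | rfl
        · rw [if_pos (show f 5 ∈ T ∧ f 1 ∈ T from ⟨h0.2, hw⟩)]; linarith
        · rw [if_pos (show f 5 ∈ T ∧ f 2 ∈ T from ⟨h0.2, hw⟩)]; linarith
        · rw [if_pos (show f 5 ∈ T ∧ f 3 ∈ T from ⟨h0.2, hw⟩)]; linarith
        · rw [if_pos (show f 5 ∈ T ∧ f 4 ∈ T from ⟨h0.2, hw⟩)]; linarith
      · push Not at hin
        have hadj5 : G.Adj (f 5) w := hcl.isClique h0.2 hw hw5.symm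
        have h6 := hval _ _ hadj5
        rw [xv_out f _ w hin, Nat.cast_zero] at h6
        have h7 : (if f 5 ∈ T ∧ w ∈ T then lam T else 0) ≤
            ∑ T ∈ G.cliqueFinset 3, (if f 5 ∈ T ∧ w ∈ T then lam T else 0) :=
          Finset.single_le_sum (f := fun T => if f 5 ∈ T ∧ w ∈ T then lam T else 0)
            (fun T _ => by
              show 0 ≤ (if f 5 ∈ T ∧ w ∈ T then lam T else 0)
              split_ifs
              · exact hl T
              · exact le_rfl) hT
        rw [if_pos ⟨h0.2, hw⟩, ← h6] at h7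
        linarith
    · rw [if_neg h0]; linarith
  rw [Finset.sum_add_distrib, Finset.sum_add_distrib, Finset.sum_add_distrib,
    ← h05, ← h1, ← h2, ← h3, ← h4] at key
  norm_num at key

end main

/-- Let `G` be a finite simple graph with six pairwise adjacent vertices (for instance the complete
graph `K₆`). Then some vector `x` with nonnegative integer entries satisfies all the inequalities
`v_H^T x ≥ 0` of the triangle-free subgraphs `H` of `G`, but is not a nonnegative combination of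
triangles; so `C(G) ≠ P(G)`. -/
theorem result {V : Type*} [Fintype V] (G : SimpleGraph V) (hG : ¬ G.CliqueFree 6) :
    ∃ x : G.edgeSet → ℝ, (∀ e, ∃ n : ℕ, x e = n) ∧ x ∈ coneP G ∧ x ∉ coneC G := by
  have f := SimpleGraph.topEmbeddingOfNotCliqueFree hG
  have hadj : ∀ a b, a ≠ b → G.Adj (f a) (f b) := fun a b h => by
    rw [f.map_adj_iff]
    exact h
  have hf : ∀ p ∈ prs, s(f p.1, f p.2) ∈ G.edgeSet := by
    intro p hp
    refine hadj _ _ ?_
    revert p
    decide
  exact ⟨fun e => (xv f (e : Sym2 V) : ℝ), fun e => ⟨xv f e, rfl⟩,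
    xv_mem_coneP f hf f.injective, xv_not_mem_coneC f hadj f.injective⟩

end Pool.Agent.Results.MP_eb5675_co.SixClique
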